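import Mathlib

set_option autoImplicit false

namespace Pool.Agent.H.MP_0f752e_al
open Function Subgroup
open scoped commutatorElement

variable {G G' : Type} [Group G] [Group G']

/-- normaliser -/
abbrev N (E : Subgroup G) : Subgroup G := normalizer (E : Set G)

/-- conjugate subgroup -/
def cj (g : G) (E : Subgroup G) : Subgroup G := E.map (MulAut.conj g).toMonoidHom

/-- subnormality inside an ambient group -/
inductive SN (E : Subgroup G) : Subgroup G → Prop
  | refl : SN E E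
  | step {K H : Subgroup G} : SN E K → K ≤ H → H ≤ N K → SN E H

/-- join of the proper normal subgroups -/
def M (E : Subgroup G) : Subgroup G := sSup {D | D ≤ E ∧ D ≠ E ∧ E ≤ N D}

/-- perfect with a unique maximal normal subgroup -/
def PC (E : Subgroup G) : Prop := E ≤ ⁅E, E⁆ ∧ M E ≠ E

def Cap (H E : Subgroup G) : Prop := SN E H ∧ PC E

theorem nc {E : Subgroup G} {g e : G} (hg : g ∈ N E) (he : e ∈ E) : g * e * g⁻¹ ∈ E :=
  (mem_normalizer_iff.1 hg e).1 he

theorem mem_cj {g x : G} {E : Subgroup G} : x ∈ cj g E ↔ g⁻¹ * x * g ∈ E := by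
  constructor
  · rintro ⟨y, hy, rfl⟩; simpa [mul_assoc] using hy
  · intro h; exact ⟨_, h, by simp [mul_assoc]⟩

theorem mem_N {g : G} {E : Subgroup G} : g ∈ N E ↔ cj g E = E := mem_normalizer_iff_map_conj_eq

theorem cj_mul (g h : G) (E : Subgroup G) : cj (g * h) E = cj g (cj h E) := by
  ext x; simp [mem_cj, mul_assoc]

theorem cj_one (E : Subgroup G) : cj 1 E = E := by ext x; simp [mem_cj]

theorem map_cj (f : G →* G') (g : G) (E : Subgroup G) : (cj g E).map f = cj (f g) (E.map f) := by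
  unfold cj; rw [map_map, map_map]; congr 1; ext x; simp

theorem SN.le {E H : Subgroup G} (h : SN E H) : E ≤ H := by
  induction h with
  | refl => exact le_rfl
  | step _ h1 _ ih => exact ih.trans h1

theorem SN.trans {E K H : Subgroup G} (h : SN E K) (h' : SN K H) : SN E H := by
  induction h' with
  | refl => exact h
  | step _ h1 h2 ih => exact ih.step h1 h2

theorem SN.one {K H : Subgroup G} (h1 : K ≤ H) (h2 : H ≤ N K) : SN K H := SN.refl.step h1 h2

theorem SN.inf {E H : Subgroup G} (h : SN E H) (K : Subgroup G) : SN (E ⊓ K) (H ⊓ K) := by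
  induction h with
  | refl => exact .refl
  | step _ h1 h2 ih =>
    exact ih.step (inf_le_inf_right _ h1)
      ((inf_le_inf h2 le_normalizer).trans inf_normalizer_le_normalizer_inf)

theorem SN.mid {E K H : Subgroup G} (h : SN E H) (h1 : E ≤ K) (h2 : K ≤ H) : SN E K := by
  have := h.inf K
  rwa [inf_eq_left.2 h1, inf_eq_right.2 h2] at this

theorem SN.map {E H : Subgroup G} (h : SN E H) (f : G →* G') : SN (E.map f) (H.map f) := by
  induction h with
  | refl => exact .refl
  | step _ h1 h2 ih => exact ih.step (map_mono h1) ((map_mono h2).trans (le_normalizer_map f))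

theorem SN.comap {E H : Subgroup G'} (h : SN E H) (f : G →* G') : SN (E.comap f) (H.comap f) := by
  induction h with
  | refl => exact .refl
  | step _ h1 h2 ih => exact ih.step (comap_mono h1) ((comap_mono h2).trans (le_normalizer_comap f))

theorem M_le (E : Subgroup G) : M E ≤ E := sSup_le fun _ h => h.1

theorem le_M {D E : Subgroup G} (h1 : D ≤ E) (h2 : D ≠ E) (h3 : E ≤ N D) : D ≤ M E :=
  le_sSup (s := {D | D ≤ E ∧ D ≠ E ∧ E ≤ N D}) ⟨h1, h2, h3⟩

theorem N_M (E : Subgroup G) : N E ≤ N (M E) := by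
  refine le_normalizer_iff.2 fun g hg x hx => ?_
  have : M E ≤ cj g⁻¹ (M E) := by
    refine sSup_le fun D hD => ?_
    have : cj g D ≤ M E := by
      refine le_M (fun y hy => ?_) (fun e => hD.2.1 ?_) (le_normalizer_iff.2 fun e he y hy => ?_)
      · have := nc hg (hD.1 (mem_cj.1 hy)); simpa [mul_assoc] using this
      · have := congrArg (cj g⁻¹) e
        rwa [← cj_mul, inv_mul_cancel, cj_one, mem_N.1 (inv_mem hg)] at this
      · have := nc (hD.2.2 (nc (inv_mem hg) he)) (mem_cj.1 hy)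
        rw [mem_cj]; simpa [mul_assoc] using this
    intro y hy
    rw [mem_cj]
    exact this (mem_cj.2 (by simpa [mul_assoc] using hy))
  simpa using mem_cj.1 (this hx)

/-- elements normalising `E` and centralising its head -/
def C (E : Subgroup G) : Subgroup G where
  carrier := {g | g ∈ N E ∧ ∀ e ∈ E, ⁅g, e⁆ ∈ M E}
  one_mem' := ⟨one_mem _, fun e _ => by simp⟩
  mul_mem' := by
    rintro a b ⟨ha, ha'⟩ ⟨hb, hb'⟩
    refine ⟨mul_mem ha hb, fun e he => ?_⟩
    rw [commutatorElement_mul_left_eq_conj_mul]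
    exact mul_mem (nc (N_M E ha) (hb' e he)) (ha' e he)
  inv_mem' := by
    rintro a ⟨ha, ha'⟩
    refine ⟨inv_mem ha, fun e he => ?_⟩
    rw [commutatorElement_inv_left, ← commutatorElement_inv]
    simpa using nc (N_M E (inv_mem ha)) (inv_mem (ha' e he))

theorem C_le (E : Subgroup G) : C E ≤ N E := fun _ h => h.1

theorem PC.not_le {E : Subgroup G} (h : PC E) : ¬ E ≤ C E := fun h' =>
  h.2 (le_antisymm (M_le E) (h.1.trans (commutator_le.2 fun _ ha _ hb => (h' ha).2 _ hb)))

theorem PC.ne_bot {E : Subgroup G} (h : PC E) : ¬ E ≤ ⊥ := fun h' =>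
  h.not_le (h'.trans bot_le)

theorem M_map {E : Subgroup G} (h : M E ≠ E) {f : G →* G'} (ha : ¬ E ≤ f.ker) :
    M (E.map f) = (M E).map f ∧ M (E.map f) ≠ E.map f := by
  have hk : E ⊓ f.ker ≤ M E := le_M inf_le_left (fun e => ha (e ▸ inf_le_right))
    ((le_inf le_normalizer le_normalizer_of_normal).trans inf_normalizer_le_normalizer_inf)
  have h1 : (M E).map f ≠ E.map f := fun e => h (le_antisymm (M_le E) fun x hx => by
    obtain ⟨y, hy, e'⟩ : f x ∈ (M E).map f := e ▸ mem_map_of_mem f hx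
    have : y⁻¹ * x ∈ M E := hk (mem_inf.2 ⟨mul_mem (inv_mem (M_le E hy)) hx, by simp [e']⟩)
    simpa using mul_mem hy this)
  have h2 : M (E.map f) = (M E).map f := by
    refine le_antisymm (sSup_le fun D hD => ?_) (le_M (map_mono (M_le E)) h1
      ((map_mono (le_normalizer.trans (N_M E))).trans (le_normalizer_map f)))
    have : D.comap f ⊓ E ≤ M E := le_M inf_le_right
      (fun e => hD.2.1 (le_antisymm hD.1 (map_le_iff_le_comap.2 (e ▸ inf_le_left))))
      ((le_inf ((map_le_iff_le_comap.1 hD.2.2).trans (le_normalizer_comap f)) le_normalizer).trans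
        inf_normalizer_le_normalizer_inf)
    intro y hy
    obtain ⟨x, hx, rfl⟩ := hD.1 hy
    exact mem_map_of_mem f (this ⟨hy, hx⟩)
  exact ⟨h2, h2 ▸ h1⟩

theorem mem_M_map {E : Subgroup G} (h : M E ≠ E) {f : G →* G'} (ha : ¬ E ≤ f.ker) {x : G}
    (hx : x ∈ E) : f x ∈ M (E.map f) ↔ x ∈ M E := by
  have hk : E ⊓ f.ker ≤ M E := le_M inf_le_left (fun e => ha (e ▸ inf_le_right))
    ((le_inf le_normalizer le_normalizer_of_normal).trans inf_normalizer_le_normalizer_inf)
  rw [(M_map h ha).1]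
  refine ⟨?_, mem_map_of_mem f⟩
  rintro ⟨y, hy, e'⟩
  have : y⁻¹ * x ∈ M E := hk (mem_inf.2 ⟨mul_mem (inv_mem (M_le E hy)) hx, by simp [e']⟩)
  simpa using mul_mem hy this

theorem PC.map {E : Subgroup G} (h : PC E) {f : G →* G'} (ha : ¬ E ≤ f.ker) : PC (E.map f) :=
  ⟨by rw [← map_commutator]; exact map_mono h.1, (M_map h.2 ha).2⟩

theorem Cap.map {H E : Subgroup G} (h : Cap H E) {f : G →* G'} (ha : ¬ E ≤ f.ker) :
    Cap (H.map f) (E.map f) := ⟨h.1.map f, h.2.map ha⟩

theorem PC.alive {E : Subgroup G} (h : PC E) {f : G →* G'} (hf : Injective f) : ¬ E ≤ f.ker := by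
  rw [(MonoidHom.ker_eq_bot_iff f).2 hf]; exact h.ne_bot

theorem PC.cj {E : Subgroup G} (h : PC E) (g : G) : PC (cj g E) :=
  h.map (h.alive (MulAut.conj g).injective)

theorem Cap.le {H E : Subgroup G} (h : Cap H E) : E ≤ H := h.1.le

theorem Cap.cj {H E : Subgroup G} (h : Cap H E) {g : G} (hg : g ∈ N H) : Cap H (cj g E) :=
  ⟨by have := h.1.map (MulAut.conj g).toMonoidHom; rwa [show H.map _ = H from mem_N.1 hg] at this,
    h.2.cj g⟩

theorem Cap.cj' {H E : Subgroup G} (h : Cap H E) {g : G} (hg : g ∈ H) : Cap H (MP_0f752e_al.cj g E) :=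
  h.cj (le_normalizer hg)

theorem Cap.mid {H K E : Subgroup G} (h : Cap H E) (h1 : E ≤ K) (h2 : K ≤ H) : Cap K E :=
  ⟨h.1.mid h1 h2, h.2⟩

theorem Cap.up {H K E : Subgroup G} (h : Cap K E) (h1 : K ≤ H) (h2 : H ≤ N K) : Cap H E :=
  ⟨h.1.step h1 h2, h.2⟩

theorem C_map {E : Subgroup G} (h : PC E) {f : G →* G'} (ha : ¬ E ≤ f.ker) {g : G} (hg : g ∈ C E) :
    f g ∈ C (E.map f) := by
  refine ⟨le_normalizer_map f (mem_map_of_mem f hg.1), ?_⟩
  rintro _ ⟨e, he, rfl⟩
  rw [← map_commutatorElement, (M_map h.2 ha).1]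
  exact mem_map_of_mem f (hg.2 e he)

/-- Wielandt's lemma -/
theorem L1 {E H : Subgroup G} (h : SN E H) (hE : PC E) :
    ∀ X : Subgroup G, X ≤ H → H ≤ N X → ¬ E ≤ X → X ≤ C E := by
  have fin : ∀ X : Subgroup G, X ≤ N E → E ≤ N X → ¬ E ≤ X → X ≤ C E := fun X h1 h2 h3 x hx => by
    refine ⟨h1 hx, fun e he => ?_⟩
    refine le_M (D := X ⊓ E) inf_le_right (fun e => h3 (e ▸ inf_le_left))
      ((le_inf h2 le_normalizer).trans inf_normalizer_le_normalizer_inf) (mem_inf.2 ⟨?_, ?_⟩)
    · have := mul_mem hx (nc (h2 he) (inv_mem hx))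
      simpa [commutatorElement_def, mul_assoc] using this
    · exact mul_mem (nc (h1 hx) he) (inv_mem he)
  induction h with
  | refl => exact fun X h1 h2 h3 => fin X (h1.trans le_normalizer) h2 h3
  | @step K H hK h1 h2 ih =>
    intro X hX hn hE'
    have hD : X ⊓ K ≤ C E := ih _ inf_le_right
      ((le_inf (h1.trans hn) le_normalizer).trans inf_normalizer_le_normalizer_inf)
      fun h => hE' (h.trans inf_le_left)
    have cm : ∀ x ∈ X, ∀ e ∈ K, ⁅x, e⁆ ∈ X ⊓ K := fun x hx e he => mem_inf.2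
      ⟨by have := mul_mem hx (nc (hn (h1 he)) (inv_mem hx))
          simpa [commutatorElement_def, mul_assoc] using this,
        mul_mem (nc (h2 (hX hx)) he) (inv_mem he)⟩
    refine fin X (le_normalizer_iff.2 fun x hx => ?_) (hK.le.trans (h1.trans hn)) hE'
    suffices cj x E ≤ E from fun e he => this (mem_cj.2 (by simpa [mul_assoc] using he))
    by_contra hne
    have hD' : X ⊓ K ≤ C (cj x E) := fun d hd => by
      have hd' : x⁻¹ * d * x ∈ X ⊓ K := mem_inf.2
        ⟨mul_mem (mul_mem (inv_mem hx) (mem_inf.1 hd).1) hx, by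
        simpa using nc (h2 (hX (inv_mem hx))) (mem_inf.1 hd).2⟩
      have := C_map hE (hE.alive (f := (MulAut.conj x).toMonoidHom) (MulAut.conj x).injective) (hD hd')
      simpa [mul_assoc, cj] using this
    have a1 : cj x E ≤ N E := by
      rintro _ ⟨e, he, rfl⟩
      have := mul_mem (C_le E (hD (cm x hx e (hK.le he)))) (le_normalizer he)
      simpa [commutatorElement_def, mul_assoc] using this
    have a2 : E ≤ N (cj x E) := fun e he => by
      have := mul_mem (inv_mem (C_le _ (hD' (cm x hx e (hK.le he)))))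
        (le_normalizer (mem_cj.2 (show x⁻¹ * (x * e * x⁻¹) * x ∈ E by simpa [mul_assoc] using he)))
      simpa [commutatorElement_def, mul_assoc] using this
    have a3 : E ≤ C (cj x E) := fun e he => by
      refine ⟨a2 he, fun y hy => ?_⟩
      refine le_M (D := E ⊓ cj x E) inf_le_right (fun e => hne (e ▸ inf_le_left))
        ((le_inf a1 le_normalizer).trans inf_normalizer_le_normalizer_inf) (mem_inf.2 ⟨?_, ?_⟩)
      · have := mul_mem he (nc (a1 hy) (inv_mem he))
        simpa [commutatorElement_def, mul_assoc] using this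
      · exact mul_mem (nc (a2 he) hy) (inv_mem hy)
    refine (hE.cj x).not_le ?_
    rintro _ ⟨e, he, rfl⟩
    have := mul_mem (hD' (cm x hx e (hK.le he))) (a3 he)
    simpa [commutatorElement_def, mul_assoc] using this

theorem Cap.l1 {E H X : Subgroup G} (h : Cap H E) (h1 : X ≤ H) (h2 : H ≤ N X) (h3 : ¬ E ≤ X) :
    X ≤ C E := L1 h.1 h.2 X h1 h2 h3

theorem L4 {W H : Subgroup G} (h : SN W H) {E : Subgroup G} (hE : Cap H E) (h3 : ¬ E ≤ W) :
    W ≤ C E := by
  induction h with
  | refl => exact (h3 hE.le).elim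
  | @step K H hK h1 h2 ih =>
    by_cases hEK : E ≤ K
    · exact ih (hE.mid hEK h1)
    · exact hK.le.trans (hE.l1 h1 h2 hEK)

theorem Cap.le_of_mv {H E E' : Subgroup G} (h : Cap H E) (h' : Cap H E') (hm : ¬ E ≤ N E') :
    E' ≤ E := by
  by_contra hc
  exact hm ((L4 h.1 h' hc).trans (C_le _))

theorem Cap.or {X Y E : Subgroup G} (h : Cap (X ⊔ Y) E) (hX : X ⊔ Y ≤ N X) (hY : X ⊔ Y ≤ N Y) :
    E ≤ X ∨ E ≤ Y := by
  by_contra hc
  push Not at hc
  exact h.2.not_le (h.le.trans (sup_le (h.l1 le_sup_left hX hc.1) (h.l1 le_sup_right hY hc.2)))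

theorem Cap.ker {H E : Subgroup G} (h : Cap H E) {f : G →* G'} (ha : ¬ E ≤ f.ker) :
    H ⊓ f.ker ≤ C E :=
  h.l1 inf_le_left ((le_inf le_normalizer le_normalizer_of_normal).trans
    inf_normalizer_le_normalizer_inf) fun h' => ha (h'.trans inf_le_right)

theorem Cap.uniq {H E E' : Subgroup G} (h : Cap H E) (h' : Cap H E') {f : G →* G'}
    (ha : ¬ E ≤ f.ker) (e : E.map f = E'.map f) : E = E' := by
  have key : ∀ {E E' : Subgroup G}, Cap H E → Cap H E' → ¬ E ≤ f.ker → E.map f = E'.map f →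
      E ≤ E' := fun {E E'} h h' ha e => by
    by_contra hc
    refine h.2.not_le fun x hx => ?_
    obtain ⟨y, hy, e'⟩ : f x ∈ E'.map f := e ▸ mem_map_of_mem f hx
    have := mul_mem (L4 h'.1 h hc hy)
      (h.ker ha (x := y⁻¹ * x) (mem_inf.2 ⟨mul_mem (inv_mem (h'.le hy)) (h.le hx), by simp [e']⟩))
    simpa using this
  refine le_antisymm (key h h' ha e) (key h' h (fun hc => ha ?_) e.symm)
  rwa [← Subgroup.map_eq_bot_iff, e, Subgroup.map_eq_bot_iff]

theorem Cap.lift [Finite G] {H : Subgroup G} {f : G →* G'} {E' : Subgroup G'}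
    (h : Cap (H.map f) E') : ∃ E, Cap H E ∧ ¬ E ≤ f.ker ∧ E.map f = E' := by
  have h0 : SN (E'.comap f ⊓ H) H ∧ (E'.comap f ⊓ H).map f = E' := by
    constructor
    · have := (h.1.comap f).inf H
      rwa [inf_eq_right.2 (le_comap_map f H)] at this
    · refine le_antisymm ((map_mono inf_le_left).trans (map_comap_le f _)) fun y hy => ?_
      obtain ⟨x, hx, rfl⟩ := h.le hy
      exact mem_map_of_mem f ⟨hy, hx⟩
  obtain ⟨E, -, hE⟩ := Finite.exists_le_minimal (p := fun E => SN E H ∧ E.map f = E') h0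
  obtain ⟨s, e⟩ := hE.prop
  refine ⟨E, ⟨s, ?_, fun hM => h.2.2 (le_antisymm (M_le _) ?_)⟩, fun hc => h.2.ne_bot ?_, e⟩
  · refine hE.le_of_le ⟨(SN.one (commutator_le_self E) (normalizer_commutator_ge_left _ _)).trans s,
      ?_⟩ (commutator_le_self E)
    rw [map_commutator, e]
    exact le_antisymm (commutator_le_self _) h.2.1
  · conv_lhs => rw [← e, ← hM]
    refine map_le_iff_le_comap.2 (sSup_le fun D hD => map_le_iff_le_comap.1 ?_)
    refine le_M (e ▸ map_mono hD.1) (fun e' => hD.2.1 (le_antisymm hD.1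
      (hE.le_of_le ⟨(SN.one hD.1 hD.2.2).trans s, e'⟩ hD.1))) ?_
    rw [← e]
    exact (map_mono hD.2.2).trans (le_normalizer_map f)
  · rw [← e, (Subgroup.map_eq_bot_iff _).2 hc]

theorem Cap.cj_alive {E : Subgroup G} {f : G →* G'} (ha : ¬ E ≤ f.ker) (g : G) :
    ¬ MP_0f752e_al.cj g E ≤ f.ker := fun hc => ha fun x hx => by
  have := hc (mem_cj.2 (show g⁻¹ * (g * x * g⁻¹) * g ∈ E by simpa [mul_assoc] using hx))
  simpa [MonoidHom.mem_ker] using this

theorem Cap.mem_N_map {H E : Subgroup G} (h : Cap H E) {f : G →* G'} (ha : ¬ E ≤ f.ker) {g : G}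
    (hg : g ∈ H) : f g ∈ N (E.map f) ↔ g ∈ N E := by
  refine ⟨fun h' => ?_, fun h' => le_normalizer_map f (mem_map_of_mem f h')⟩
  rw [mem_N] at h' ⊢
  exact ((h.uniq (h.cj' hg) ha (by rw [map_cj, h']))).symm

theorem Cap.le_N_map {H E : Subgroup G} (h : Cap H E) {f : G →* G'} (ha : ¬ E ≤ f.ker)
    {D : Subgroup G} (hD : D ≤ H) : D.map f ≤ N (E.map f) ↔ D ≤ N E := by
  rw [map_le_iff_le_comap]
  exact forall₂_congr fun g hg => h.mem_N_map ha (hD hg)

end Pool.Agent.H.MP_0f752e_al
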