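import Pool.Agent.H.MP_0f752e_al.A

set_option autoImplicit false

namespace Pool.Agent.H.MP_0f752e_al
open Function Subgroup
open scoped commutatorElement

variable {G G' : Type} [Group G] [Group G']

noncomputable def col (ω σ : Subgroup G) : ℕ := (N ω).relIndex σ

def Ph (H ω σ : Subgroup G) : Prop := Cap H σ ∧ ¬ σ ≤ N ω

def R (k : ℕ) (L : Subgroup G) (g : G) : Prop :=
  ∀ u ∈ L, u ^ 5 ∈ M L → ∃ l ∈ L, g * u * g⁻¹ * (l * u ^ k * l⁻¹)⁻¹ ∈ M L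

def Act (H ω L : Subgroup G) (g : G) (ρ : ℕ → ℕ) : Prop :=
  ∀ σ, Ph H ω σ → ¬ L ≤ N σ → col ω (cj g σ) = ρ (col ω σ)

def ra (n : ℕ) : ℕ := if n = 12 then 30 else if n = 30 then 12 else n

def rb (n : ℕ) : ℕ :=
  if n = 12 then 20 else if n = 20 then 12 else if n = 30 then 60 else if n = 60 then 30 else n

def Cl (H ω L : Subgroup G) (g : G) : Prop :=
  (R 1 L g ∧ Act H ω L g id) ∨ (R 2 L g ∧ (Act H ω L g ra ∨ Act H ω L g rb))

def Sep (H ω L σ : Subgroup G) : Prop :=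
  ∀ τ, Ph H ω τ → ¬ L ≤ N τ → col ω σ = col ω τ → (∀ l ∈ L, l ∈ N σ ↔ l ∈ N τ) → σ = τ

def Good (H ω : Subgroup G) : Prop :=
  ∀ σ, Ph H ω σ →
    (∀ g ∈ H, ¬ cj g σ ≤ N ω) ∧
    ((∀ L, Ph H σ L → False) → ∀ g ∈ H, col ω (cj g σ) = col ω σ) ∧
    ∀ L, Ph H σ L → H ≤ N L ∧ M L ≤ N σ ∧ R 4 L 1 ∧ ¬ R 2 L 1 ∧ Sep H ω L σ ∧ ∀ g ∈ H, Cl H ω L g

def All (H : Subgroup G) : Prop := ∀ ω, Cap H ω → Good H ω

section transfer
variable {H : Subgroup G} {f : G →* G'}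

theorem forall_mem_map {E : Subgroup G} {p : G' → Prop} :
    (∀ y ∈ E.map f, p y) ↔ ∀ x ∈ E, p (f x) :=
  ⟨fun h x hx => h _ (mem_map_of_mem f hx), fun h _ ⟨x, hx, e⟩ => e ▸ h x hx⟩

theorem exists_mem_map {E : Subgroup G} {p : G' → Prop} :
    (∃ y ∈ E.map f, p y) ↔ ∃ x ∈ E, p (f x) :=
  ⟨fun ⟨_, ⟨x, hx, e⟩, h⟩ => ⟨x, hx, e ▸ h⟩, fun ⟨x, hx, h⟩ => ⟨_, mem_map_of_mem f hx, h⟩⟩

theorem Ph.le {ω σ : Subgroup G} (h : Ph H ω σ) (hω : Cap H ω) : ω ≤ σ := h.1.le_of_mv hω h.2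

theorem Ph.alive {ω σ : Subgroup G} (h : Ph H ω σ) (hω : Cap H ω) (ha : ¬ ω ≤ f.ker) :
    ¬ σ ≤ f.ker := fun hc => ha ((h.le hω).trans hc)

theorem forall_ph [Finite G] {ω : Subgroup G} (hω : Cap H ω) (ha : ¬ ω ≤ f.ker)
    {p : Subgroup G → Prop} {p' : Subgroup G' → Prop}
    (h : ∀ σ, Ph H ω σ → ¬ σ ≤ f.ker → (p' (σ.map f) ↔ p σ)) :
    (∀ σ, Ph (H.map f) (ω.map f) σ → p' σ) ↔ ∀ σ, Ph H ω σ → p σ := by
  constructor
  · intro h' σ hσ
    have := hσ.alive hω ha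
    exact (h σ hσ this).1 (h' _ ⟨hσ.1.map this, fun hc => hσ.2 ((hω.le_N_map ha hσ.1.le).1 hc)⟩)
  · intro h' σ' hσ'
    obtain ⟨σ, h1, h2, rfl⟩ := hσ'.1.lift
    have : Ph H ω σ := ⟨h1, fun hc => hσ'.2 ((hω.le_N_map ha h1.le).2 hc)⟩
    exact (h σ this h2).2 (h' σ this)

theorem col_map {ω σ : Subgroup G} (hω : Cap H ω) (ha : ¬ ω ≤ f.ker) (hσ : σ ≤ H) :
    col (ω.map f) (σ.map f) = col ω σ := by
  unfold col
  rw [← relIndex_comap, ← inf_relIndex_right, ← inf_relIndex_right (N ω)]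
  congr 1
  ext x
  exact and_congr_left fun hx => hω.mem_N_map ha (hσ hx)

theorem cj_le {σ : Subgroup G} {g : G} (hσ : σ ≤ H) (hg : g ∈ N H) : cj g σ ≤ H :=
  mem_N.1 hg ▸ map_mono hσ

theorem R_map {L : Subgroup G} (hL : PC L) (ha : ¬ L ≤ f.ker) {g : G} (hg : g ∈ N L) (k : ℕ) :
    R k (L.map f) (f g) ↔ R k L g := by
  unfold R
  rw [forall_mem_map]
  refine forall₂_congr fun u hu => imp_congr ?_
    (exists_mem_map.trans (exists_congr fun l => and_congr_right fun hl => ?_))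
  · rw [← map_pow]; exact mem_M_map hL.2 ha (pow_mem hu _)
  · rw [← mem_M_map hL.2 ha (mul_mem (nc hg hu)
      (inv_mem (mul_mem (mul_mem hl (pow_mem hu _)) (inv_mem hl))))]
    simp

theorem act_map [Finite G] {ω L : Subgroup G} (hω : Cap H ω) (ha : ¬ ω ≤ f.ker) (hL : L ≤ H)
    {g : G} (hg : g ∈ H) (ρ : ℕ → ℕ) :
    Act (H.map f) (ω.map f) (L.map f) (f g) ρ ↔ Act H ω L g ρ := by
  refine forall_ph hω ha fun σ hσ hs => ?_
  rw [hσ.1.le_N_map hs hL, ← map_cj, col_map hω ha hσ.1.le,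
    col_map hω ha (cj_le hσ.1.le (le_normalizer hg))]

theorem and_dep {a a' b b' : Prop} (h1 : a' ↔ a) (h2 : a → (b' ↔ b)) : a' ∧ b' ↔ a ∧ b := by tauto

theorem good_map [Finite G] {ω : Subgroup G} (hω : Cap H ω) (ha : ¬ ω ≤ f.ker) :
    Good (H.map f) (ω.map f) ↔ Good H ω := by
  refine forall_ph hω ha fun σ hσ hs => and_congr ?_ (and_congr (imp_congr ?_ ?_) ?_)
  · rw [forall_mem_map]
    refine forall₂_congr fun g hg => ?_
    rw [← map_cj, hω.le_N_map ha (cj_le hσ.1.le (le_normalizer hg))]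
  · exact forall_ph hσ.1 hs fun _ _ _ => Iff.rfl
  · rw [forall_mem_map]
    refine forall₂_congr fun g hg => ?_
    rw [← map_cj, col_map hω ha hσ.1.le, col_map hω ha (cj_le hσ.1.le (le_normalizer hg))]
  · refine forall_ph hσ.1 hs fun L hL hl => and_dep (hL.1.le_N_map hl le_rfl) fun hn => ?_
    have r1 : ∀ k, R k (L.map f) 1 ↔ R k L 1 := fun k => by
      rw [← R_map hL.1.2 hl (one_mem _), map_one]
    refine and_congr ?_ (and_congr (r1 _) (and_congr (not_congr (r1 _)) (and_congr ?_ ?_)))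
    · rw [(M_map hL.1.2.2 hl).1, hσ.1.le_N_map hs ((M_le _).trans hL.1.le)]
    · refine forall_ph hω ha fun τ hτ ht => ?_
      rw [hτ.1.le_N_map ht hL.1.le, col_map hω ha hσ.1.le, col_map hω ha hτ.1.le, forall_mem_map]
      refine imp_congr_right fun _ => imp_congr_right fun _ => imp_congr
        (forall₂_congr fun l hl => ?_) ⟨hσ.1.uniq hτ.1 hs, fun e => e ▸ rfl⟩
      rw [hσ.1.mem_N_map hs (hL.1.le hl), hτ.1.mem_N_map ht (hL.1.le hl)]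
    · rw [forall_mem_map]
      refine forall₂_congr fun g hg => ?_
      unfold Cl
      simp only [R_map hL.1.2 hl (hn hg), act_map hω ha hL.1.le hg]

theorem all_map [Finite G] : All (H.map f) ↔ ∀ ω, Cap H ω → ¬ ω ≤ f.ker → Good H ω := by
  constructor
  · exact fun h ω hω ha => (good_map hω ha).1 (h _ (hω.map ha))
  · intro h ω' hω'
    obtain ⟨ω, h1, h2, rfl⟩ := hω'.lift
    exact (good_map h1 h2).2 (h ω h1 h2)

end transfer

section R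
variable {L : Subgroup G}

theorem ev_pow {x y : G} (hx : x ∈ N L) (h : x * y⁻¹ ∈ M L) (n : ℕ) : x ^ n * (y ^ n)⁻¹ ∈ M L := by
  induction n with
  | zero => simp
  | succ n ih =>
    have := mul_mem (nc (N_M L hx) ih) h
    rw [pow_succ', pow_succ']
    simpa [mul_assoc] using this

theorem R.mul {g h : G} {j k : ℕ} (hh : h ∈ N L) (h1 : R j L g) (h2 : R k L h) :
    R (k * j) L (g * h) := fun u hu h5 => by
  obtain ⟨l, hl, e⟩ := h2 u hu h5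
  obtain ⟨m, hm, e'⟩ := h1 _ (nc hh hu) (by rw [conj_pow]; exact nc (N_M L hh) h5)
  refine ⟨m * l, mul_mem hm hl, ?_⟩
  have := mul_mem e' (nc (N_M L (le_normalizer hm)) (ev_pow (le_normalizer (nc hh hu)) e j))
  rw [conj_pow (a := l)] at this
  simpa [mul_assoc, pow_mul] using this

theorem R.cen {g : G} (hg : g ∈ C L) : R 1 L g := fun u hu _ =>
  ⟨1, one_mem _, by simpa [commutatorElement_def] using hg.2 u hu⟩

theorem R.inn {g : G} (hg : g ∈ L) : R 1 L g := fun u _ _ => ⟨g, hg, by simp⟩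

theorem R.excl {g : G} (h1 : R 1 L g) (h2 : R 2 L g) : R 2 L 1 := fun u hu h5 => by
  obtain ⟨l, hl, e⟩ := h1 u hu h5
  obtain ⟨m, hm, e'⟩ := h2 u hu h5
  refine ⟨l⁻¹ * m, mul_mem (inv_mem hl) hm, ?_⟩
  have := nc (N_M L (le_normalizer (inv_mem hl))) (mul_mem (inv_mem e) e')
  simpa [mul_assoc] using this

theorem R.sixteen {g : G} (h : R 16 L g) : R 1 L g := fun u hu h5 => by
  obtain ⟨l, hl, e⟩ := h u hu h5
  refine ⟨l, hl, ?_⟩
  have := mul_mem e (nc (N_M L (le_normalizer hl)) (pow_mem h5 3))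
  convert this using 1
  group

end R

theorem Cl.one {H ω L : Subgroup G} {g : G} (h : Cl H ω L g) (h0 : ¬ R 2 L 1) (h1 : R 1 L g) :
    Act H ω L g id :=
  h.elim (·.2) fun h2 => (h0 (h1.excl h2.1)).elim

theorem mem_N_cj {g x : G} {σ : Subgroup G} : x ∈ N (cj g σ) ↔ g⁻¹ * x * g ∈ N σ := by
  rw [mem_N, mem_N, cj_mul, cj_mul]
  constructor
  · intro h; rw [h, ← cj_mul, inv_mul_cancel, cj_one]
  · intro h
    have := congrArg (cj g) h
    rwa [← cj_mul, mul_inv_cancel, cj_one] at this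

theorem col_cj (g : G) (ω σ : Subgroup G) : col (cj g⁻¹ ω) σ = col ω (cj g σ) := by
  unfold col
  conv_rhs => rw [cj, ← relIndex_comap]
  congr 1
  ext x
  simp [mem_N_cj]

theorem le_N_cj {g : G} {L σ : Subgroup G} : L ≤ N (cj g⁻¹ σ) ↔ cj g L ≤ N σ := by
  rw [cj.eq_1 g, map_le_iff_le_comap]
  exact forall₂_congr fun x _ => by simp [mem_N_cj]

theorem good_triv {H ω : Subgroup G} (h : ∀ σ, Ph H ω σ → H ≤ N σ) : Good H ω := fun σ hσ =>
  ⟨fun g hg => by rw [mem_N.1 (h σ hσ hg)]; exact hσ.2,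
    fun _ g hg => by rw [mem_N.1 (h σ hσ hg)],
    fun L hL => (hL.2 (hL.1.le.trans (h σ hσ))).elim⟩

theorem Ph.up {H Z ω σ : Subgroup G} (h : Ph Z ω σ) (h1 : Z ≤ H) (h2 : H ≤ N Z) : Ph H ω σ :=
  ⟨h.1.up h1 h2, h.2⟩

theorem Ph.mid {H Z ω σ : Subgroup G} (h : Ph H ω σ) (h1 : σ ≤ Z) (h2 : Z ≤ H) : Ph Z ω σ :=
  ⟨h.1.mid h1 h2, h.2⟩

theorem Act.dn {H Z ω L : Subgroup G} {g : G} {ρ : ℕ → ℕ} (h : Act H ω L g ρ) (h1 : Z ≤ H)
    (h2 : H ≤ N Z) : Act Z ω L g ρ := fun σ hσ => h σ (hσ.up h1 h2)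

/-- closure under normal subgroups -/
theorem All.sub {H Z : Subgroup G} (h : All H) (h1 : Z ≤ H) (h2 : H ≤ N Z) : All Z := by
  intro ω hω σ hσ
  obtain ⟨b1, b2, a⟩ := h ω (hω.up h1 h2) σ (hσ.up h1 h2)
  refine ⟨fun g hg => b1 g (h1 hg), fun hn g hg => ?_, fun L hL => ?_⟩
  · by_cases hc : ∀ L, Ph H σ L → False
    · exact b2 hc g (h1 hg)
    · push Not at hc
      obtain ⟨L, hL, -⟩ := hc
      obtain ⟨-, -, -, a4, -, a6⟩ := a L hL
      exact (a6 g (h1 hg)).one a4 (R.cen (hL.1.l1 h1 h2 (fun hc => hn L (hL.mid hc h1)) hg)) σ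
        (hσ.up h1 h2) hL.2
  · obtain ⟨a1, a2, a3, a4, a5, a6⟩ := a L (hL.up h1 h2)
    refine ⟨h1.trans a1, a2, a3, a4, fun τ hτ => a5 τ (hτ.up h1 h2), fun g hg => ?_⟩
    exact (a6 g (h1 hg)).imp (And.imp_right (·.dn h1 h2))
      (And.imp_right (Or.imp (·.dn h1 h2) (·.dn h1 h2)))

end Pool.Agent.H.MP_0f752e_al
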