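import Pool.Agent.H.MP_0f752e_al.B

set_option autoImplicit false

namespace Pool.Agent.H.MP_0f752e_al
open Function Subgroup
open scoped commutatorElement

variable {G : Type} [Group G] {H X Y ω : Subgroup G}

theorem comb {P : ℕ → Prop} {x y r : ℕ → ℕ} (hx : x = ra ∨ x = rb) (hy : y = ra ∨ y = rb)
    (hr : r = id ∨ r = ra ∨ r = rb) (cx : ∀ n, P n → P (x n)) (cy : ∀ n, P n → P (y n))
    (h : ∀ n, P n → y (x n) = r (y n)) (n : ℕ) (hn : P n) : x (y n) = n := by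
  by_cases h4 : n = 12 ∨ n = 20 ∨ n = 30 ∨ n = 60
  · have a1 := h _ hn
    have a2 := h _ (cx _ hn)
    have a3 := h _ (cy _ hn)
    have a4 := h _ (cx _ (cy _ hn))
    have a5 := h _ (cy _ (cx _ hn))
    rcases hx with rfl | rfl <;> rcases hy with rfl | rfl <;> rcases hr with rfl | rfl | rfl <;>
      rcases h4 with rfl | rfl | rfl | rfl <;> revert a1 a2 a3 a4 a5 <;> decide
  · push Not at h4
    rcases hx with rfl | rfl <;> rcases hy with rfl | rfl <;> simp [ra, rb, h4]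

theorem zb1 (hX : All X) (h1 : X ≤ H) (h2 : H ≤ N X) (hω : Cap H ω) {σ : Subgroup G}
    (hσ : Ph H ω σ) {x : G} (hx : x ∈ X) : Ph H ω (cj x σ) := by
  refine ⟨hσ.1.cj' (h1 hx), ?_⟩
  by_cases hc : σ ≤ X
  · exact (hX ω (hω.mid ((hσ.le hω).trans hc) h1) σ (hσ.mid hc h1)).1 x hx
  · rw [mem_N.1 (C_le _ (hσ.1.l1 h1 h2 hc hx))]; exact hσ.2

theorem zb2 (hX : All X) (h1 : X ≤ H) (h2 : H ≤ N X) (hω : Cap H ω) {σ : Subgroup G}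
    (hσ : Ph H ω σ) (hn : ∀ L, Ph X σ L → False) {x : G} (hx : x ∈ X) :
    col ω (cj x σ) = col ω σ := by
  by_cases hc : σ ≤ X
  · exact (hX ω (hω.mid ((hσ.le hω).trans hc) h1) σ (hσ.mid hc h1)).2.1 hn x hx
  · rw [mem_N.1 (C_le _ (hσ.1.l1 h1 h2 hc hx))]

theorem zc (hX : All X) (x1 : X ≤ H) (x2 : H ≤ N X) (hY : All Y) (y1 : Y ≤ H) (y2 : H ≤ N Y)
    (hω : Cap H ω) {L : Subgroup G} (hL : Cap H L) (l1 : L ≤ X) (l2 : ¬ L ≤ Y) {y : G}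
    (hy : y ∈ Y) : Act H ω L y id := by
  intro σ hσ hm
  refine zb2 hY y1 y2 hω hσ (fun L' hL' => hL'.2 fun l' hl' => ?_) hy
  have s1 : σ ≤ L := hL.le_of_mv hσ.1 hm
  have s2 : σ ≤ Y := ((hL'.up y1 y2).le hσ.1).trans hL'.1.le
  obtain ⟨-, -, -, a4, -, a6⟩ :=
    (hY ω (hω.mid ((hσ.le hω).trans s2) y1) σ (hσ.mid s2 y1)).2.2 L' hL'
  have c1 := (a6 l' (hL'.1.le hl')).one a4 (R.inn hl') σ (hσ.mid s2 y1) hL'.2
  obtain ⟨-, b2, -, -, b5, -⟩ := (hX ω (hω.mid ((hσ.le hω).trans (s1.trans l1)) x1) σ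
    (hσ.mid (s1.trans l1) x1)).2.2 L ⟨hL.mid l1 x1, hm⟩
  have c2 : ∀ l ∈ L, l ∈ N σ ↔ l ∈ N (cj l' σ) := fun l hl => by
    have := b2 ((hL.l1 y1 y2 l2 (inv_mem (hL'.1.le hl'))).2 l hl)
    rw [mem_N_cj, ← (N σ).mul_mem_cancel_left this]
    simp [commutatorElement_def]
  rw [mem_N]
  exact (b5 _ ((zb1 hY y1 y2 hω hσ (hL'.1.le hl')).mid
    (cj_le (s1.trans l1) (x2 (y1 (hL'.1.le hl')))) x1)
    (fun hc => hm fun l hl => (c2 l hl).2 (hc hl)) c1.symm c2).symm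

theorem mv_cj {L σ : Subgroup G} {g : G} (hg : g ∈ N L) (hm : ¬ L ≤ N σ) : ¬ L ≤ N (cj g σ) := by
  rwa [← inv_inv g, le_N_cj, mem_N.1 (inv_mem hg)]

theorem Act.upX (x1 : X ≤ H) (hL : ∀ σ, Ph H ω σ → ¬ Y ≤ N σ → σ ≤ X) {g : G} {ρ : ℕ → ℕ}
    (h : Act X ω Y g ρ) : Act H ω Y g ρ := fun σ hσ hm => h σ (hσ.mid (hL σ hσ hm) x1) hm

theorem Cl.upX (x1 : X ≤ H) (hL : ∀ σ, Ph H ω σ → ¬ Y ≤ N σ → σ ≤ X) {g : G}
    (h : Cl X ω Y g) : Cl H ω Y g :=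
  h.imp (And.imp_right (·.upX x1 hL)) (And.imp_right (Or.imp (·.upX x1 hL) (·.upX x1 hL)))

theorem zmain (hX : All X) (x1 : X ≤ H) (x2 : H ≤ N X) (hY : All Y) (y1 : Y ≤ H) (y2 : H ≤ N Y)
    (hH : ∀ g ∈ H, ∃ x ∈ X, ∃ y ∈ Y, g = x * y) (hω : Cap H ω) {σ L : Subgroup G} (hσ : Ph H ω σ)
    (hL : Ph H σ L) (l1 : L ≤ X) :
    H ≤ N L ∧ M L ≤ N σ ∧ R 4 L 1 ∧ ¬ R 2 L 1 ∧ Sep H ω L σ ∧ ∀ g ∈ H, Cl H ω L g := by
  have sL : ∀ τ, Ph H ω τ → ¬ L ≤ N τ → τ ≤ L := fun τ hτ hm => hL.1.le_of_mv hτ.1 hm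
  have sX : ∀ τ, Ph H ω τ → ¬ L ≤ N τ → τ ≤ X := fun τ hτ hm => (sL τ hτ hm).trans l1
  have s1 := sX σ hσ hL.2
  have w1 : Cap X ω := hω.mid ((hσ.le hω).trans s1) x1
  obtain ⟨a1, a2, a3, a4, a5, a6⟩ := (hX ω w1 σ (hσ.mid s1 x1)).2.2 L (hL.mid l1 x1)
  have hy : Y ≤ N L ∧ ∀ y ∈ Y, Cl H ω L y := by
    by_cases l2 : L ≤ Y
    · have s2 := (sL σ hσ hL.2).trans l2
      obtain ⟨b1, -, -, -, -, b6⟩ :=
        (hY ω (hω.mid ((hσ.le hω).trans s2) y1) σ (hσ.mid s2 y1)).2.2 L (hL.mid l2 y1)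
      exact ⟨b1, fun y hy => (b6 y hy).upX y1 fun τ hτ hm => (sL τ hτ hm).trans l2⟩
    · have := hL.1.l1 y1 y2 l2
      exact ⟨this.trans (C_le _), fun y hy =>
        .inl ⟨R.cen (this hy), zc hX x1 x2 hY y1 y2 hω hL.1 l1 l2 hy⟩⟩
  refine ⟨fun g hg => ?_, a2, a3, a4, fun τ hτ hm => a5 τ (hτ.mid (sX τ hτ hm) x1) hm, fun g hg => ?_⟩
  · obtain ⟨x, hx, y, hy', rfl⟩ := hH g hg
    exact mul_mem (a1 hx) (hy.1 hy')
  obtain ⟨x, hx, y, hy', rfl⟩ := hH g hg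
  have comp : ∀ {ρ ρ' : ℕ → ℕ}, Act H ω L x ρ → Act H ω L y ρ' → Act H ω L (x * y) (ρ ∘ ρ') :=
    fun h h' τ hτ hm => by
      rw [cj_mul, h _ (zb1 hY y1 y2 hω hτ hy') (mv_cj (hy.1 hy') hm), h' τ hτ hm]; rfl
  rcases (a6 x hx).upX x1 sX with ⟨r1, c1⟩ | ⟨r1, c1⟩ <;> rcases hy.2 y hy' with ⟨r2, c2⟩ | ⟨r2, c2⟩
  · exact .inl ⟨r1.mul (hy.1 hy') r2, comp c1 c2⟩
  · exact .inr ⟨r1.mul (hy.1 hy') r2, c2.imp (comp c1) (comp c1)⟩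
  · exact .inr ⟨r1.mul (hy.1 hy') r2, c1.imp (fun h => comp (ρ := ra) h c2) fun h => comp (ρ := rb) h c2⟩
  · refine .inl ⟨R.sixteen (by simpa using (r1.mul (hy.1 hy') r2).mul (one_mem _) a3), ?_⟩
    obtain ⟨ρ, e1, c1⟩ : ∃ ρ, (ρ = ra ∨ ρ = rb) ∧ Act H ω L x ρ :=
      c1.elim (⟨_, .inl rfl, ·⟩) (⟨_, .inr rfl, ·⟩)
    obtain ⟨ρ', e2, c2⟩ : ∃ ρ, (ρ = ra ∨ ρ = rb) ∧ Act H ω L y ρ :=
      c2.elim (⟨_, .inl rfl, ·⟩) (⟨_, .inr rfl, ·⟩)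
    have ph : ∀ τ, Ph H ω τ → ¬ L ≤ N τ → Ph X (cj y⁻¹ ω) τ := fun τ hτ hm =>
      ⟨hτ.1.mid (sX τ hτ hm) x1, by rw [le_N_cj]; exact (zb1 hY y1 y2 hω hτ hy').2⟩
    obtain ⟨r, e3, c3⟩ : ∃ r, (r = id ∨ r = ra ∨ r = rb) ∧ Act X (cj y⁻¹ ω) L x r := by
      rcases ((hX _ (w1.cj (x2 (y1 (inv_mem hy')))) σ (ph σ hσ hL.2)).2.2 L
        (hL.mid l1 x1)).2.2.2.2.2 x hx with h | ⟨-, h | h⟩
      exacts [⟨_, .inl rfl, h.2⟩, ⟨_, .inr (.inl rfl), h⟩, ⟨_, .inr (.inr rfl), h⟩]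
    intro τ hτ hm
    rw [comp c1 c2 τ hτ hm]
    refine comb (P := fun n => ∃ τ, Ph H ω τ ∧ ¬ L ≤ N τ ∧ col ω τ = n) e1 e2 e3 ?_ ?_ ?_ _
      ⟨τ, hτ, hm, rfl⟩
    · rintro _ ⟨τ, hτ, hm, rfl⟩
      exact ⟨_, zb1 hX x1 x2 hω hτ hx, mv_cj (a1 hx) hm, c1 τ hτ hm⟩
    · rintro _ ⟨τ, hτ, hm, rfl⟩
      exact ⟨_, zb1 hY y1 y2 hω hτ hy', mv_cj (hy.1 hy') hm, c2 τ hτ hm⟩
    · rintro _ ⟨τ, hτ, hm, rfl⟩
      have := c3 τ (ph τ hτ hm) hm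
      rwa [col_cj, col_cj, c2 τ hτ hm, c2 _ (zb1 hX x1 x2 hω hτ hx) (mv_cj (a1 hx) hm),
        c1 τ hτ hm] at this

/-- closure under normal products -/
theorem All.sup (hX : All X) (hY : All Y) (x2 : X ⊔ Y ≤ N X) (y2 : X ⊔ Y ≤ N Y) : All (X ⊔ Y) := by
  have hH : ∀ g ∈ X ⊔ Y, ∃ x ∈ X, ∃ y ∈ Y, g = x * y := fun g hg => by
    have : g ∈ ((X ⊔ Y : Subgroup G) : Set G) := hg
    rw [coe_mul_of_left_le_normalizer_right _ _ (le_sup_left.trans y2)] at this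
    obtain ⟨x, hx, y, hy, e⟩ := this
    exact ⟨x, hx, y, hy, e.symm⟩
  have hH' : ∀ g ∈ X ⊔ Y, ∃ y ∈ Y, ∃ x ∈ X, g = y * x := fun g hg => by
    obtain ⟨x, hx, y, hy, e⟩ := hH _ (inv_mem hg)
    exact ⟨_, inv_mem hy, _, inv_mem hx, by rw [← mul_inv_rev, ← e, inv_inv]⟩
  intro ω hω σ hσ
  refine ⟨fun g hg => ?_, fun hn g hg => ?_, fun L hL => ?_⟩
  · obtain ⟨x, hx, y, hy, rfl⟩ := hH g hg
    rw [cj_mul]
    exact (zb1 hX le_sup_left x2 hω (zb1 hY le_sup_right y2 hω hσ hy) hx).2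
  · obtain ⟨x, hx, y, hy, rfl⟩ := hH g hg
    rw [cj_mul, zb2 hX le_sup_left x2 hω (zb1 hY le_sup_right y2 hω hσ hy) (fun L hL => ?_) hx,
      zb2 hY le_sup_right y2 hω hσ (fun L hL => hn L (hL.up le_sup_right y2)) hy]
    refine hn (cj y⁻¹ L) ⟨(hL.up le_sup_left x2).1.cj' (mem_sup_right (inv_mem hy)), ?_⟩
    rw [← le_N_cj, inv_inv]
    exact hL.2
  · rcases hL.1.or x2 y2 with h | h
    · exact zmain hX le_sup_left x2 hY le_sup_right y2 hH hω hσ hL h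
    · exact zmain hY le_sup_right y2 hX le_sup_left x2 hH' hω hσ hL h

/-- the class -/
def F (G : Type) [Group G] : Prop := All (⊤ : Subgroup G)

variable {G' : Type} [Group G']

theorem F_sub [Finite G] (H : Subgroup G) : F H ↔ All H := by
  have := all_map (H := ⊤) (f := H.subtype)
  rw [← MonoidHom.range_eq_map, range_subtype] at this
  exact ⟨fun h => this.2 fun ω hω _ => h ω hω,
    fun h ω hω => this.1 h ω hω (hω.2.alive H.subtype_injective)⟩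

theorem F_surj [Finite G] {f : G →* G'} (hf : Surjective f) :
    F G' ↔ ∀ ω, Cap ⊤ ω → ¬ ω ≤ f.ker → Good ⊤ ω := by
  rw [← all_map, ← MonoidHom.range_eq_map, MonoidHom.range_eq_top.2 hf]; rfl

theorem F_quot [Finite G] {H : Subgroup G} {f : H →* G'} (hf : Surjective f) :
    F G' ↔ ∀ ω, Cap H ω → ¬ ω ≤ f.ker.map H.subtype → Good H ω := by
  rw [F_surj hf]
  have e : (⊤ : Subgroup H).map H.subtype = H := by rw [← MonoidHom.range_eq_map, range_subtype]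
  constructor
  · intro h ω hω ha
    rw [← e] at hω
    obtain ⟨ω, h1, h2, rfl⟩ := hω.lift
    have := (good_map h1 h2).2 (h ω h1 fun hc => ha (map_mono hc))
    rwa [e] at this
  · intro h ω hω ha
    have h2 := hω.2.alive H.subtype_injective
    rw [← good_map hω h2, e]
    exact h _ (by have := hω.map h2; rwa [e] at this) fun hc => ha ((map_le_map_iff_of_injective H.subtype_injective).1 hc)

theorem F_img [Finite G] (h : F G) (f : G →* G') (hf : Surjective f) : F G' :=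
  (F_surj hf).2 fun ω hω _ => h ω hω

theorem F_normal [Finite G] (h : F G) (K : Subgroup G) (hK : K.Normal) : F K :=
  (F_sub K).2 (All.sub h le_top le_normalizer_of_normal)

theorem F_prod [Finite G] (K K' : Subgroup G) (hK : K.Normal) (hK' : K'.Normal) (h : F K)
    (h' : F K') : F (K ⊔ K' : Subgroup G) :=
  (F_sub _).2 (((F_sub _).1 h).sup ((F_sub _).1 h') le_normalizer_of_normal le_normalizer_of_normal)

theorem F_inf [Finite G] {Q₁ Q₂ : Type} [Group Q₁] [Group Q₂] (f₁ : G →* Q₁) (f₂ : G →* Q₂)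
    (f : G →* G') (h₁ : Surjective f₁) (h₂ : Surjective f₂) (h : Surjective f)
    (e : f.ker = f₁.ker ⊓ f₂.ker) (a₁ : F Q₁) (a₂ : F Q₂) : F G' := by
  refine (F_surj h).2 fun ω hω ha => ?_
  by_cases hc : ω ≤ f₁.ker
  · exact (F_surj h₂).1 a₂ ω hω fun hc' => ha (e ▸ le_inf hc hc')
  · exact (F_surj h₁).1 a₁ ω hω hc

theorem F_solv [Finite G] (K : Subgroup G) (hs : Group.IsSolvable K) (f : G →* G') (h : Surjective f)
    (e : f.ker ≤ K) (a : F G') : F G := by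
  refine fun ω hω => (F_surj h).1 a ω hω fun hc => ?_
  have h1 : ω ≤ K := hc.trans e
  have h2 : ω.subgroupOf K ≠ ⊥ := fun e => hω.2.ne_bot (by
    rw [← map_subgroupOf_eq_of_le h1, e, Subgroup.map_bot])
  refine (Group.IsSolvable.commutator_lt_of_ne_bot h2).not_ge ?_
  rw [← map_le_map_iff_of_injective K.subtype_injective, map_commutator, map_subgroupOf_eq_of_le h1]
  exact hω.2.1

end Pool.Agent.H.MP_0f752e_al
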