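import Pool.Agent.H.MP_0f752e_al.C

set_option autoImplicit false

namespace Pool.Agent.H.MP_0f752e_al
open Function Subgroup Equiv
open scoped commutatorElement Pointwise

variable {G : Type} [Group G]

theorem d4 : ∀ u : Perm (Fin 5), u ^ 5 = 1 → ∃ l : Perm (Fin 5), Perm.sign l = 1 ∧
    u = l * u ^ 4 * l⁻¹ := by decide +kernel

theorem d2 : ∃ u : Perm (Fin 5), Perm.sign u = 1 ∧ u ^ 5 = 1 ∧ ∀ l : Perm (Fin 5), Perm.sign l = 1 →
    u ≠ l * u ^ 2 * l⁻¹ := ⟨finRotate 5, by decide +kernel⟩

theorem dt : ∀ u : Perm (Fin 5), u ^ 5 = 1 → ∃ l : Perm (Fin 5), Perm.sign l = 1 ∧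
    swap 0 1 * u * (swap 0 1)⁻¹ = l * u ^ 2 * l⁻¹ := by decide +kernel

theorem dm : ∀ i j : Fin 5, i ≠ j → ∃ l : Perm (Fin 5), Perm.sign l = 1 ∧ l i = i ∧ l j ≠ j := by
  decide +kernel

abbrev A : Type := ↥(alternatingGroup (Fin 5))

theorem A_simple : IsSimpleGroup A := alternatingGroup.isSimpleGroup (by simp)

theorem A_top : M (⊤ : Subgroup A) = ⊥ ∧ PC (⊤ : Subgroup A) := by
  have := A_simple
  have h : M (⊤ : Subgroup A) = ⊥ := le_bot_iff.1 (sSup_le fun D hD =>
    ((normalizer_eq_top_iff.1 (top_le_iff.1 hD.2.2)).eq_bot_or_eq_top.resolve_right hD.2.1).le)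
  refine ⟨h, ((inferInstance : (⁅(⊤ : Subgroup A), (⊤ : Subgroup A)⁆).Normal).eq_bot_or_eq_top.resolve_left
    fun e => ?_).ge, by rw [h]; exact bot_ne_top⟩
  have := e.le (commutator_mem_commutator
    (mem_top (⟨swap 0 1 * swap 1 2, by simp⟩ : A)) (mem_top ⟨swap 0 1 * swap 1 3, by simp⟩))
  rw [mem_bot, Subtype.ext_iff] at this
  revert this
  decide

theorem range_PC {j : A →* G} (hj : Injective j) : PC j.range ∧ M j.range = ⊥ := by
  rw [MonoidHom.range_eq_map]
  have := A_top.2.alive hj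
  exact ⟨A_top.2.map this, by rw [(M_map A_top.2.2 this).1, A_top.1, Subgroup.map_bot]⟩

theorem Cap.eq_of_le {H E T : Subgroup G} (hE : Cap H E) (hT : Cap H T) (hM : M T = ⊥)
    (h : E ≤ T) : E = T := by
  refine le_antisymm h (by_contra fun hc => hE.2.ne_bot (hE.2.1.trans ?_))
  exact commutator_le.2 fun a ha b hb => hM ▸ (L4 hE.1 hT hc ha).2 b (h hb)

section wreath
variable {I Q : Type} [Group Q] [MulAction Q I]

abbrev W (I Q : Type) [Group Q] [MulAction Q I] : Type := (I → A) ⋊[mulAutArrow] Q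

instance [Finite I] [Finite Q] : Finite (W I Q) := Finite.of_equiv _ SemidirectProduct.equivProd.symm

open Classical in
noncomputable def tj (i : I) : A →* W I Q :=
  SemidirectProduct.inl.comp (MonoidHom.mulSingle (fun _ => A) i)

theorem tj_inj (i : I) : Injective (tj i : A →* W I Q) := by
  intro a b e
  simpa [tj] using congrArg (fun g : W I Q => g.left i) e

noncomputable def T (i : I) : Subgroup (W I Q) := (tj i).range

abbrev pr : W I Q →* Q := SemidirectProduct.rightHom

theorem mem_T {i : I} {g : W I Q} : g ∈ T i ↔ g.right = 1 ∧ ∀ j, j ≠ i → g.left j = 1 := by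
  constructor
  · rintro ⟨a, rfl⟩
    exact ⟨rfl, fun j hj => by simp [tj, hj]⟩
  · rintro ⟨h1, h2⟩
    refine ⟨g.left i, SemidirectProduct.ext ?_ h1.symm⟩
    ext1 j
    by_cases hj : j = i
    · simp [tj, hj]
    · simp [tj, hj, h2 j hj]

theorem conj_left {g x : W I Q} (hx : x.right = 1) (j : I) :
    (g * x * g⁻¹).left j = g.left j * x.left (g.right⁻¹ • j) * (g.left j)⁻¹ := by
  simp [hx]
  rfl

theorem cj_T (g : W I Q) (i : I) : cj g (T i) = T (g.right • i) := by
  have key : ∀ (g : W I Q) (i : I), cj g (T i) ≤ T (g.right • i) := by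
    rintro g i _ ⟨x, hx, rfl⟩
    obtain ⟨h1, h2⟩ := mem_T.1 hx
    refine mem_T.2 ⟨by simp [h1], fun j hj => ?_⟩
    change (g * x * g⁻¹).left j = 1
    rw [conj_left h1, h2 _ fun e => hj (by rw [← e, smul_inv_smul])]
    simp
  refine le_antisymm (key g i) ?_
  have := map_mono (f := (MulAut.conj g).toMonoidHom) (key g⁻¹ (g.right • i))
  change cj g _ ≤ cj g _ at this
  simpa [← cj_mul, cj_one] using this

theorem T_PC (i : I) : PC (T i : Subgroup (W I Q)) ∧ M (T i : Subgroup (W I Q)) = ⊥ :=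
  range_PC (tj_inj i)

theorem T_inj {i j : I} (h : (T i : Subgroup (W I Q)) = T j) : i = j := by
  by_contra hc
  refine (T_PC (Q := Q) i).1.ne_bot fun x hx => ?_
  obtain ⟨h1, h2⟩ := mem_T.1 hx
  obtain ⟨-, h3⟩ := mem_T.1 (h ▸ hx)
  refine SemidirectProduct.ext (funext fun k => ?_) h1
  by_cases hk : k = i
  · exact h3 k (hk ▸ hc)
  · exact h2 k hk

theorem N_T {g : W I Q} {i : I} : g ∈ N (T i) ↔ g.right • i = i := by
  rw [mem_N, cj_T]; exact ⟨T_inj, fun e => by rw [e]⟩

theorem T_le (i : I) : (T i : Subgroup (W I Q)) ≤ pr.ker := fun _ hx => (mem_T.1 hx).1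

theorem ker_N_T (i : I) : pr.ker ≤ N (T i : Subgroup (W I Q)) := fun g hg => by
  rw [N_T, show g.right = 1 from hg, one_smul]

theorem cap_T {H : Subgroup (W I Q)} (hH : pr.ker ≤ H) (i : I) : Cap H (T i) :=
  ⟨(SN.one (T_le i) (ker_N_T i)).step hH le_normalizer_of_normal, (T_PC i).1⟩

theorem cap_base [Finite I] {H E : Subgroup (W I Q)} (hH : pr.ker ≤ H) (hE : Cap H E)
    (h : E ≤ pr.ker) : ∃ i, E = T i := by
  classical
  by_contra hc
  push Not at hc
  refine hE.2.not_le (h.trans fun g hg => ?_)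
  have : g.left ∈ (C E).comap SemidirectProduct.inl := pi_mem_of_mulSingle_mem _ fun i =>
    (hE.mid h hH).l1 (T_le i) (ker_N_T i)
      (fun h' => hc i (hE.eq_of_le (cap_T hH i) (T_PC i).2 h')) ⟨g.left i, by simp [tj]⟩
  rwa [← SemidirectProduct.inl_left_mul_inr_right g, show g.right = 1 from hg, map_one, mul_one]

/-- the product action -/
def Om (I : Type) : Type := I → Set A

instance [Finite I] : Finite (Om I) := inferInstanceAs (Finite (I → Set A))

instance : MulAction (W I Q) (Om I) where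
  smul k f := fun s => k.left s • f (k.right⁻¹ • s)
  one_smul f := funext fun s => show (1 : W I Q).left s • f ((1 : W I Q).right⁻¹ • s) = f s by simp
  mul_smul k k' f := funext fun s => show (k * k').left s • f ((k * k').right⁻¹ • s) =
    k.left s • (k'.left (k.right⁻¹ • s) • f (k'.right⁻¹ • k.right⁻¹ • s)) by simp [mul_smul]; rfl

theorem smul_ap (k : W I Q) (f : Om I) (s : I) : (k • f) s = k.left s • f (k.right⁻¹ • s) := rfl

noncomputable def kap (S : Set A) : ℕ := (MulAction.stabilizer A S).index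

theorem kap_smul (a : A) (S : Set A) : kap (a • S) = kap S := by
  unfold kap
  rw [MulAction.stabilizer_smul_eq_stabilizer_map_conj, index_map_of_bijective (MulAut.conj a).bijective]

theorem col_T {f : Om I} {σ : Subgroup (W (Om I) (W I Q))} {s : I} (h : σ.map pr = T s) :
    col (T f) σ = kap (f s) := by
  have : N (T f : Subgroup (W (Om I) (W I Q))) = (MulAction.stabilizer _ f).comap pr := by
    ext g; exact N_T
  rw [col, this, relIndex_comap, h, T, MonoidHom.range_eq_map, ← relIndex_comap, relIndex_top_right, kap]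
  congr 1
  ext a
  rw [mem_comap, MulAction.mem_stabilizer_iff, MulAction.mem_stabilizer_iff]
  constructor
  · intro e
    simpa [smul_ap, tj] using congrFun e s
  · intro e
    refine funext fun t => ?_
    by_cases ht : t = s
    · simpa [smul_ap, tj, ht] using e
    · simp [smul_ap, tj, ht]

end wreath

end Pool.Agent.H.MP_0f752e_al
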