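import Pool.Agent.H.MP_0f752e_al.D

set_option autoImplicit false

namespace Pool.Agent.H.MP_0f752e_al
open Function Subgroup Equiv
open scoped commutatorElement Pointwise

abbrev D8 : Type := DihedralGroup 4

def act : D8 → ZMod 4 → ZMod 4
  | .r i, x => x + i
  | .sr i, x => -x - i

theorem act_mul : ∀ d e x, act (d * e) x = act d (act e x) := by decide

abbrev P : Type := Perm (Fin 5) × D8

def Sg : Type := Fin 5 × ZMod 4

instance : Finite Sg := inferInstanceAs (Finite (Fin 5 × ZMod 4))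

instance : MulAction P Sg where
  smul p s := (p.1 s.1, act p.2 s.2)
  one_smul s := Prod.ext rfl (add_zero s.2)
  mul_smul p q s := Prod.ext rfl (act_mul p.2 q.2 s.2)

theorem smul1 (p : P) (s : Sg) : (p • s).1 = p.1 s.1 := rfl
theorem smul2 (p : P) (s : Sg) : (p • s).2 = act p.2 s.2 := rfl

abbrev Z : Type := ℤˣ × D8

def th : P →* Z := Perm.sign.prodMap (MonoidHom.id D8)

theorem mem_th {p : P} : p ∈ th.ker ↔ Perm.sign p.1 = 1 ∧ p.2 = 1 := by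
  simp [th, MonoidHom.mem_ker, Prod.ext_iff]

theorem th_PC : PC th.ker ∧ M th.ker = ⊥ := by
  have : th.ker = ((MonoidHom.inl _ D8).comp (alternatingGroup (Fin 5)).subtype).range := by
    ext ⟨p, d⟩
    rw [mem_th]
    simp [eq_comm]
  rw [this]
  exact range_PC ((Prod.mk_left_injective _).comp Subtype.val_injective)

theorem th_surj : Surjective th := fun ⟨u, d⟩ => by
  obtain ⟨p, rfl⟩ := Perm.sign_surjective (Fin 5) u
  exact ⟨(p, d), rfl⟩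

theorem z2 : ∀ a b c : Z, ⁅⁅a, b⁆, c⁆ = 1 := by decide +kernel

theorem cap_P {H E : Subgroup P} (hH : th.ker ≤ H) (hE : Cap H E) : E = th.ker := by
  refine hE.eq_of_le ⟨SN.one hH le_normalizer_of_normal, th_PC.1⟩ th_PC.2 ?_
  rw [← Subgroup.map_eq_bot_iff, ← le_bot_iff]
  have h1 : E.map th ≤ ⁅E.map th, E.map th⁆ := by rw [← map_commutator]; exact map_mono hE.2.1
  have h2 : E.map th ≤ center Z := h1.trans (commutator_le.2 fun a _ b _ =>
    mem_center_iff.2 fun c => (commutatorElement_eq_one_iff_mul_comm.1 (z2 a b c)).symm)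
  exact h1.trans ((commutator_mono le_rfl h2).trans (commutator_center_right _).le)

theorem RP {k : ℕ} {p : P} : R k th.ker p ↔ ∀ u : Perm (Fin 5), Perm.sign u = 1 → u ^ 5 = 1 →
    ∃ l : Perm (Fin 5), Perm.sign l = 1 ∧ p.1 * u * p.1⁻¹ = l * u ^ k * l⁻¹ := by
  unfold R
  rw [th_PC.2]
  constructor
  · intro h u h1 h5
    obtain ⟨l, hl, e⟩ := h (u, 1) (mem_th.2 ⟨h1, rfl⟩) (by simp [h5])
    exact ⟨l.1, (mem_th.1 hl).1, mul_inv_eq_one.1 (congrArg Prod.fst (mem_bot.1 e))⟩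
  · intro h u hu h5
    obtain ⟨l, hl, e⟩ := h u.1 (mem_th.1 hu).1 (congrArg Prod.fst (mem_bot.1 h5))
    refine ⟨(l, 1), mem_th.2 ⟨hl, rfl⟩, mem_bot.2 (mul_inv_eq_one.2 (Prod.ext e ?_))⟩
    simp [(mem_th.1 hu).2]

theorem RP4 : R 4 th.ker 1 := RP.2 fun u _ h5 => by simpa using d4 u h5

theorem RP2 : ¬ R 2 th.ker 1 := fun h => by
  obtain ⟨u, h1, h5, h'⟩ := d2
  obtain ⟨l, hl, e⟩ := RP.1 h u h1 h5
  exact h' l hl (by simpa using e)

theorem RPo {p : P} (hp : Perm.sign p.1 = -1) : R 2 th.ker p := by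
  have h1 : R 2 th.ker (swap 0 1, p.2) := RP.2 fun u _ h5 => dt u h5
  have h2 : ((swap 0 1 * p.1, 1) : P) ∈ th.ker := mem_th.2 ⟨by simp [hp], rfl⟩
  have := h1.mul (le_normalizer h2) (R.inn h2)
  simpa [← mul_assoc] using this

abbrev K : Type := W Sg P
abbrev GG : Type := W (Om Sg) K
abbrev p1 : GG →* K := pr
abbrev pi : GG →* P := (pr : K →* P).comp p1
abbrev Th : GG →* Z := th.comp pi

theorem ker_map {G₁ G₂ G₃ : Type} [Group G₁] [Group G₂] [Group G₃] {f : G₁ →* G₂} {g : G₂ →* G₃}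
    (hf : Surjective f) {H : Subgroup G₁} (h : (g.comp f).ker ≤ H) : g.ker ≤ H.map f := fun y hy => by
  obtain ⟨x, rfl⟩ := hf y
  exact mem_map_of_mem f (h hy)

theorem p1_surj : Surjective p1 := SemidirectProduct.rightHom_surjective
theorem pi_surj : Surjective pi := SemidirectProduct.rightHom_surjective.comp p1_surj
theorem Th_surj : Surjective Th := th_surj.comp pi_surj
theorem k12 : p1.ker ≤ pi.ker := fun g hg => by
  rw [MonoidHom.mem_ker, MonoidHom.comp_apply, hg, map_one]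
theorem k23 : pi.ker ≤ Th.ker := fun g hg => by
  rw [MonoidHom.mem_ker, MonoidHom.comp_apply, hg, map_one]

variable {H : Subgroup GG} (hH : Th.ker ≤ H)
include hH

theorem top {L : Subgroup GG} (hL : Cap H L) (ha : ¬ L ≤ pi.ker) : L.map pi = th.ker :=
  cap_P (ker_map pi_surj hH) (hL.map ha)

theorem top_N {L : Subgroup GG} (hL : Cap H L) (ha : ¬ L ≤ pi.ker) : H ≤ N L := by
  rw [← hL.le_N_map ha le_rfl, top hH hL ha]
  exact le_normalizer_of_normal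

theorem ex_top : ∃ L, Cap H L ∧ ¬ L ≤ pi.ker ∧ L.map pi = th.ker :=
  Cap.lift ⟨SN.one (ker_map pi_surj hH) le_normalizer_of_normal, th_PC.1⟩

theorem mid {σ : Subgroup GG} (hσ : Cap H σ) (ha : ¬ σ ≤ p1.ker) (hb : σ ≤ pi.ker) :
    ∃ s, σ.map p1 = T s :=
  cap_base (ker_map p1_surj (k23.trans hH)) (hσ.map ha) (map_le_iff_le_comap.2 hb)

theorem ex_mid (s : Sg) : ∃ σ, Cap H σ ∧ ¬ σ ≤ p1.ker ∧ σ.map p1 = T s :=
  Cap.lift (cap_T (ker_map p1_surj (k23.trans hH)) s)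

omit hH in
theorem mid_N {σ : Subgroup GG} (hσ : Cap H σ) (ha : ¬ σ ≤ p1.ker) {s : Sg} (e : σ.map p1 = T s)
    {g : GG} (hg : g ∈ H) : g ∈ N σ ↔ pi g • s = s := by
  rw [← hσ.mem_N_map ha hg, e, N_T]; rfl

omit hH in
theorem mid_cj {σ : Subgroup GG} {s : Sg} (e : σ.map p1 = T s) (g : GG) :
    (cj g σ).map p1 = T (pi g • s) := by
  rw [map_cj, e, cj_T]; rfl

theorem ker_N {σ : Subgroup GG} (hσ : Cap H σ) (ha : ¬ σ ≤ p1.ker) : pi.ker ≤ N σ := by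
  by_cases hb : σ ≤ pi.ker
  · obtain ⟨s, e⟩ := mid hH hσ ha hb
    intro g hg
    rw [mid_N hσ ha e (hH (k23 hg)), show pi g = 1 from hg, one_smul]
  · exact (k23.trans hH).trans (top_N hH hσ hb)

theorem good_hi {ω : Subgroup GG} (hω : Cap H ω) (ha : ¬ ω ≤ p1.ker) : Good H ω :=
  good_triv fun _ hσ => top_N hH hσ.1 fun hc => hσ.2 (hc.trans (ker_N hH hω ha))

omit hH in
theorem top_ex {L σ τ : Subgroup GG} (hL : L ≤ H) (e : L.map pi = th.ker) (hσ : Cap H σ)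
    (ha : ¬ σ ≤ p1.ker) {s : Sg} (es : σ.map p1 = T s) (hτ : Cap H τ)
    (hb : ¬ τ ≤ p1.ker) {t : Sg} (et : τ.map p1 = T t) (h : s.1 ≠ t.1) :
    ∃ l ∈ L, l ∈ N σ ∧ l ∉ N τ := by
  obtain ⟨q, q1, q2, q3⟩ := dm _ _ h
  obtain ⟨l, hl, el⟩ : ((q, 1) : P) ∈ L.map pi := e ▸ mem_th.2 ⟨q1, rfl⟩
  refine ⟨l, hl, ?_, ?_⟩
  · rw [mid_N hσ ha es (hL hl), el]; exact Prod.ext q2 (add_zero _)
  · rw [mid_N hτ hb et (hL hl), el]; exact fun e => q3 (congrArg Prod.fst e)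

theorem top_mv {L σ : Subgroup GG} (hL : L ≤ H) (e : L.map pi = th.ker) (hσ : Cap H σ)
    (ha : ¬ σ ≤ p1.ker) {s : Sg} (es : σ.map p1 = T s) : ¬ L ≤ N σ := by
  obtain ⟨τ, h1, h2, h3⟩ := ex_mid hH (s.1 + 1, s.2)
  obtain ⟨l, hl, -, h⟩ := top_ex hL e h1 h2 h3 hσ ha es (by simp)
  exact fun hc => h (hc hl)

omit hH in
theorem mid_mv {f : Om Sg} {σ : Subgroup GG} {s : Sg} (es : σ.map p1 = T s) (h : kap (f s) ≠ 1) :
    ¬ σ ≤ N (T f) := fun hc => h (by rw [← col_T es]; exact relIndex_eq_one.2 hc)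

omit hH in
/-- colourings compatible with `d` and `ρ` -/
def gd (d : D8) (ρ : ℕ → ℕ) (f : Om Sg) : Prop :=
  ∃ c : ZMod 4 → ℕ, Injective c ∧ (∀ x, c x ≠ 1) ∧ (∀ x, c (act d x) = ρ (c x)) ∧
    ∀ s, kap (f s) = c s.2

theorem good_lo {d : D8} {ρ : ℕ → ℕ} (hρ : ρ = ra ∨ ρ = rb)
    (hd : ∀ g ∈ H, Th g = 1 ∨ Th g = (-1, d)) {f : Om Sg} (hf : gd d ρ f) : Good H (T f) := by
  obtain ⟨c, c1, c2, c3, c4⟩ := hf
  have al : ∀ σ, Ph H (T f) σ → ¬ σ ≤ p1.ker := fun σ hσ hc => hσ.2 (hc.trans (ker_N_T f))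
  intro σ hσ
  by_cases hb : σ ≤ pi.ker
  swap
  · have := top_N hH hσ.1 hb
    exact ⟨fun g hg => by rw [mem_N.1 (this hg)]; exact hσ.2,
      fun _ g hg => by rw [mem_N.1 (this hg)], fun L hL => (hL.2 (hL.1.le.trans this)).elim⟩
  obtain ⟨s, es⟩ := mid hH hσ.1 (al σ hσ) hb
  refine ⟨fun g _ => mid_mv (mid_cj es g) (c4 _ ▸ c2 _), fun hn => ?_, fun L hL => ?_⟩
  · obtain ⟨L, h1, -, h3⟩ := ex_top hH
    exact (hn L ⟨h1, top_mv hH h1.le h3 hσ.1 (al σ hσ) es⟩).elim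
  have hl : ¬ L ≤ pi.ker := fun hc => hL.2 (hc.trans (ker_N hH hσ.1 (al σ hσ)))
  have el := top hH hL.1 hl
  have nl := top_N hH hL.1 hl
  have r : ∀ k, ∀ g ∈ H, R k L g ↔ R k th.ker (pi g) := fun k g hg => by
    rw [← el, R_map hL.1.2 hl (nl hg)]
  have md : ∀ τ, Ph H (T f) τ → ¬ L ≤ N τ → ∃ t, τ.map p1 = T t := fun τ hτ hm =>
    mid hH hτ.1 (al τ hτ) (by_contra fun hc => hm (hL.1.le.trans (top_N hH hτ.1 hc)))
  refine ⟨nl, le_trans ?_ (ker_N hH hσ.1 (al σ hσ)), (r _ _ (one_mem _)).2 (by simpa using RP4),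
    fun hc => RP2 (by simpa using (r _ _ (one_mem _)).1 hc), fun τ hτ hm e1 e2 => ?_, fun g hg => ?_⟩
  · rw [← Subgroup.map_eq_bot_iff, ← (M_map hL.1.2.2 hl).1, el, th_PC.2]
  · obtain ⟨t, et⟩ := md τ hτ hm
    rw [col_T es, col_T et, c4, c4] at e1
    refine hσ.1.uniq hτ.1 (al σ hσ) (es.trans (Eq.trans (congrArg T (Prod.ext ?_ (c1 e1))) et.symm))
    by_contra hc
    obtain ⟨l, h1, h2, h3⟩ := top_ex hL.1.le el hσ.1 (al σ hσ) es hτ.1 (al τ hτ) et hc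
    exact h3 ((e2 l h1).1 h2)
  · rcases hd g hg with h | h
    · refine .inl ⟨(r _ _ hg).2 (R.inn h), fun τ hτ hm => ?_⟩
      obtain ⟨t, et⟩ := md τ hτ hm
      rw [col_T et, col_T (mid_cj et g), c4, c4, smul2, (mem_th.1 h).2]
      exact congrArg c (add_zero _)
    · refine .inr ⟨(r _ _ hg).2 (RPo (congrArg Prod.fst h)), ?_⟩
      have : Act H (T f) L g ρ := fun τ hτ hm => by
        obtain ⟨t, et⟩ := md τ hτ hm
        rw [col_T et, col_T (mid_cj et g), c4, c4, smul2, ← c3]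
        exact congrArg (fun e => c (act e t.2)) (congrArg Prod.snd h)
      rcases hρ with rfl | rfl
      exacts [.inl this, .inr this]

end Pool.Agent.H.MP_0f752e_al
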