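import Pool.Agent.H.MP_0f752e_al.E

set_option autoImplicit false

namespace Pool.Agent.H.MP_0f752e_al
open Function Subgroup Equiv
open scoped commutatorElement Pointwise

theorem SN.chain {G : Type} [Group G] {E H : Subgroup G} (h : SN E H) :
    ∃ n : ℕ, ∃ c : ℕ → Subgroup G, c 0 = E ∧ c n = H ∧
      ∀ i < n, c i ≤ c (i + 1) ∧ ((c i).subgroupOf (c (i + 1))).Normal := by
  induction h with
  | refl => exact ⟨0, fun _ => E, rfl, rfl, fun _ h => (Nat.not_lt_zero _ h).elim⟩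
  | @step K H _ h1 h2 ih =>
    obtain ⟨n, c, c0, cn, hc⟩ := ih
    refine ⟨n + 1, fun i => if i ≤ n then c i else H, by simpa using c0, by simp, fun i hi => ?_⟩
    rcases (Nat.le_of_lt_succ hi).eq_or_lt with rfl | hi'
    · beta_reduce
      rw [if_pos le_rfl, if_neg (Nat.not_succ_le_self _), cn]
      exact ⟨h1, (normal_subgroupOf_iff_le_normalizer h1).2 h2⟩
    · beta_reduce
      rw [if_pos hi'.le, if_pos (Nat.succ_le_of_lt hi')]
      exact hc i hi'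

def Sd (i : ZMod 4) : Subgroup Z where
  carrier := {z | z = 1 ∨ z = (-1, .sr i)}
  one_mem' := .inl rfl
  mul_mem' := by
    rintro _ _ (rfl | rfl) (rfl | rfl) <;> simp [Prod.ext_iff]
  inv_mem' := by
    rintro _ (rfl | rfl) <;> simp

theorem mem_Sd {i : ZMod 4} {z : Z} : z ∈ Sd i ↔ z = 1 ∨ z = (-1, .sr i) := Iff.rfl

set_option synthInstance.maxSize 100000 in
theorem Sd_SN (i : ZMod 4) : SN (Sd i) ⊤ := by
  refine (SN.one le_normalizer le_rfl).step le_top (le_normalizer_iff.2 fun h h0 k => ?_)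
  simp only [mem_normalizer_iff, mem_Sd]
  clear h0
  revert i h k
  decide +kernel

def U (i : ZMod 4) : Subgroup GG := (Sd i).comap Th

theorem U_SN (i : ZMod 4) : SN (U i) ⊤ := by simpa [U] using (Sd_SN i).comap Th

theorem U_ker (i : ZMod 4) : Th.ker ≤ U i := fun _ h => .inl h

theorem gd_smul {d : D8} {ρ : ℕ → ℕ} {f : Om Sg} (hf : gd d ρ f) {k : K}
    (hk : k.right.2⁻¹ * d = d * k.right.2⁻¹) : gd d ρ (k • f) := by
  obtain ⟨c, c1, c2, c3, c4⟩ := hf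
  refine ⟨fun x => c (act k.right.2⁻¹ x), fun x y e => ?_, fun x => c2 _, fun x => ?_, fun s => ?_⟩
  · have := congrArg (act k.right.2) (c1 e)
    rw [← act_mul, ← act_mul, mul_inv_cancel] at this
    exact (add_zero x).symm.trans (this.trans (add_zero y))
  · beta_reduce
    rw [← act_mul, hk, act_mul, c3]
  · rw [smul_ap, kap_smul, c4]; rfl

def Kd (p : Om Sg → Prop) : Subgroup GG where
  carrier := {g | g.right = 1 ∧ ∀ f, p f → g.left f = 1}
  one_mem' := ⟨rfl, fun _ _ => rfl⟩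
  mul_mem' := by
    rintro a b ⟨a1, a2⟩ ⟨b1, b2⟩
    exact ⟨by simp [a1, b1], fun f hf => by simp [a1, a2 f hf, b2 f hf]⟩
  inv_mem' := by
    rintro a ⟨a1, a2⟩
    exact ⟨by simp [a1], fun f hf => by simp [a1, a2 f hf]⟩

theorem Kd_N (i : ZMod 4) (ρ : ℕ → ℕ) : U i ≤ N (Kd (gd (.sr i) ρ)) := by
  refine le_normalizer_iff.2 fun g hg x hx => ⟨by simp [hx.1], fun f hf => ?_⟩
  rw [conj_left hx.1, hx.2 _ (gd_smul hf ?_)]
  · simp
  · have : (Th g).2 = g.right.right.2 := rfl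
    rcases hg with h | h <;> rw [h] at this <;> simp [← this]

theorem Kd_normal (i : ZMod 4) (ρ : ℕ → ℕ) : ((Kd (gd (.sr i) ρ)).subgroupOf (U i)).Normal :=
  normal_subgroupOf_iff_le_normalizer_inf.2
    ((le_inf (Kd_N i ρ) le_normalizer).trans inf_normalizer_le_normalizer_inf)

theorem T_le_Kd {p : Om Sg → Prop} {f : Om Sg} : (T f : Subgroup GG) ≤ Kd p ↔ ¬ p f := by
  constructor
  · refine fun h hf => (T_PC (Q := K) f).1.ne_bot fun x hx => ?_
    refine SemidirectProduct.ext (funext fun f' => ?_) (h hx).1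
    by_cases e : f' = f
    · exact (h hx).2 _ (e ▸ hf)
    · exact (mem_T.1 hx).2 _ e
  · exact fun h x hx => ⟨(mem_T.1 hx).1, fun f' hf' => (mem_T.1 hx).2 _ fun e => h (e ▸ hf')⟩

theorem F_U (i : ZMod 4) {ρ : ℕ → ℕ} (hρ : ρ = ra ∨ ρ = rb) {Q : Type} [Group Q] (φ : U i →* Q)
    (h : Surjective φ) (e : φ.ker = (Kd (gd (.sr i) ρ)).subgroupOf (U i)) : F Q := by
  refine (F_quot h).2 fun ω hω ha => ?_
  by_cases hc : ω ≤ p1.ker
  · obtain ⟨f, rfl⟩ := cap_base (k12.trans (k23.trans (U_ker i))) hω hc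
    refine good_lo (U_ker i) hρ (fun g hg => hg) (by_contra fun hf => ha ?_)
    rw [e, subgroupOf_map_subtype]
    exact le_inf (T_le_Kd.2 hf) hω.le
  · exact good_hi (U_ker i) hω hc

def gam (x : ZMod 4) : ℕ := if x = 0 then 12 else if x = 1 then 20 else if x = 2 then 30 else 60

theorem ex_set (x : ZMod 4) : ∃ S : Set A, kap S = gam x := by
  have hA : Nat.card A = 60 := by
    have := two_mul_nat_card_alternatingGroup (α := Fin 5)
    rw [Nat.card_perm, Nat.card_fin, show Nat.factorial 5 = 2 * 60 from rfl] at this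
    exact Nat.eq_of_mul_eq_mul_left two_pos this
  have key : ∀ n m, n * m = 60 → (∃ a : A, orderOf a = n) → ∃ S : Set A, kap S = m := by
    rintro _ m h ⟨a, rfl⟩
    refine ⟨zpowers a, ?_⟩
    have := (zpowers a).card_mul_index
    rw [Nat.card_zpowers, hA, ← h] at this
    rw [kap, MulAction.stabilizer_subgroup]
    exact Nat.eq_of_mul_eq_mul_left (orderOf_pos a) this
  have : Fact (Nat.Prime 5) := ⟨by norm_num⟩
  unfold gam
  split_ifs
  · exact key 5 _ rfl (exists_prime_orderOf_dvd_card' 5 (by rw [hA]; norm_num))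
  · exact key 3 _ rfl (exists_prime_orderOf_dvd_card' 3 (by rw [hA]; norm_num))
  · exact key 2 _ rfl (exists_prime_orderOf_dvd_card' 2 (by rw [hA]; norm_num))
  · exact key 1 _ rfl ⟨1, orderOf_one⟩

noncomputable def f0 : Om Sg := fun s => (ex_set s.2).choose

theorem kap_f0 (s : Sg) : kap (f0 s) = gam s.2 := (ex_set s.2).choose_spec

theorem gd_a : gd (.sr 2) ra f0 := ⟨gam, by decide, by decide, by decide, kap_f0⟩
theorem gd_b : gd (.sr 3) rb f0 := ⟨gam, by decide, by decide, by decide, kap_f0⟩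

theorem bad : ¬ Good (U 2 ⊔ U 3) (T f0) := fun h => by
  have hH : Th.ker ≤ U 2 ⊔ U 3 := (U_ker 2).trans le_sup_left
  obtain ⟨σ, s1, s2, s3⟩ := ex_mid hH (0, 1)
  obtain ⟨L, l1, -, l3⟩ := ex_top hH
  obtain ⟨a, ha⟩ := Th_surj (-1, .sr 2)
  obtain ⟨b, hb⟩ := Th_surj (-1, .sr 3)
  have hz : (a * b) ^ 2 ∈ U 2 ⊔ U 3 :=
    pow_mem (mul_mem (mem_sup_left (show a ∈ U 2 from .inr ha))
      (mem_sup_right (show b ∈ U 3 from .inr hb))) _
  have hσ : Ph (U 2 ⊔ U 3) (T f0) σ := ⟨s1, mid_mv s3 (by rw [kap_f0]; decide)⟩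
  have hm := top_mv hH l1.le l3 s1 s2 s3
  have c1 : col (T f0) σ = 20 := by rw [col_T s3, kap_f0]; decide
  have c2 : col (T f0) (cj ((a * b) ^ 2) σ) = 60 := by
    rw [col_T (mid_cj s3 _), kap_f0, smul2, show (pi ((a * b) ^ 2)).2 = (Th ((a * b) ^ 2)).2 from rfl,
      map_pow, map_mul, ha, hb]
    decide
  rcases ((h σ hσ).2.2 L ⟨l1, hm⟩).2.2.2.2.2 _ hz with ⟨-, h⟩ | ⟨-, h | h⟩ <;>
    have := h σ hσ hm <;> rw [c1, c2] at this <;> revert this <;> decide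

theorem T_le_ker {Q : Type} [Group Q] (φ : ↥(U 2 ⊔ U 3) →* Q) (h : Surjective φ) (hQ : F Q) :
    (T f0).subgroupOf (U 2 ⊔ U 3) ≤ φ.ker := by
  by_contra hc
  refine bad ((F_quot h).1 hQ _ (cap_T (k12.trans (k23.trans ((U_ker 2).trans le_sup_left))) _)
    fun h' => hc fun x hx => ?_)
  obtain ⟨y, hy, e⟩ := h' hx
  rwa [← Subtype.ext e]

theorem final {R₀ : Subgroup ↥(U 2 ⊔ U 3)} {R₁ : Subgroup (U 2)} {R₂ : Subgroup (U 3)}
    (h₀ : (T f0).subgroupOf (U 2 ⊔ U 3) ≤ R₀) (h₁ : R₁ ≤ (Kd (gd (.sr 2) ra)).subgroupOf (U 2))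
    (h₂ : R₂ ≤ (Kd (gd (.sr 3) rb)).subgroupOf (U 3)) :
    R₀.map (U 2 ⊔ U 3).subtype ≠ R₁.map (U 2).subtype ⊔ R₂.map (U 3).subtype := fun e => by
  refine (T_le_Kd (p := fun f => f = f0)).1 ?_ rfl
  have := map_mono (f := (U 2 ⊔ U 3).subtype) h₀
  rw [map_subgroupOf_eq_of_le
    (cap_T (k12.trans (k23.trans ((U_ker 2).trans le_sup_left))) _).le, e] at this
  refine this.trans (sup_le ?_ ?_)
  · rintro _ ⟨x, hx, rfl⟩
    exact ⟨(h₁ hx).1, fun f hf => (h₁ hx).2 f (hf ▸ gd_a)⟩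
  · rintro _ ⟨x, hx, rfl⟩
    exact ⟨(h₂ hx).1, fun f hf => (h₂ hx).2 f (hf ▸ gd_b)⟩

end Pool.Agent.H.MP_0f752e_al
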